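import Pool.Agent.Helper10.Fam.Stmts2

set_option autoImplicit false

namespace Pool.Agent.Helper10.Fam

open Pool.Agent.Helper10.Lor
open scoped BigOperators

/-- the Lorentz transformation `(id, id, φ)` -/
noncomputable def trw_Phi {n : ℕ} (φ : E n ≃ₗᵢ[ℝ] E n) : LV n ≃ₗ[ℝ] LV n :=
  LinearEquiv.prodCongr (LinearEquiv.refl ℝ ℝ)
    (LinearEquiv.prodCongr (LinearEquiv.refl ℝ ℝ) φ.toLinearEquiv)

theorem trw_apply {n : ℕ} (φ : E n ≃ₗᵢ[ℝ] E n) (x : LV n) :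
    trw_Phi φ x = (x.1, x.2.1, φ x.2.2) := rfl

theorem trw_form {n : ℕ} (φ : E n ≃ₗᵢ[ℝ] E n) (x y : LV n) :
    form (trw_Phi φ x) (trw_Phi φ y) = form x y := by
  simp only [trw_apply, form, LinearIsometryEquiv.inner_map_map]

theorem trw_inv {n : ℕ} (φ : E n ≃ₗᵢ[ℝ] E n) : (trw_Phi φ)⁻¹ = trw_Phi φ.symm := by
  refine inv_eq_of_mul_eq_one_right ?_
  refine LinearEquiv.ext fun x => ?_
  rw [LinearEquiv.mul_apply, trw_apply, trw_apply]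
  simp

theorem trw_mem_LG {n : ℕ} (φ : E n ≃ₗᵢ[ℝ] E n) : trw_Phi φ ∈ LG n :=
  ⟨trw_form φ, fun x _ hx => by rw [trw_apply]; exact hx⟩

theorem trw_lat {n : ℕ} {L L' : AddSubgroup (E n)} (φ : E n ≃ₗᵢ[ℝ] E n)
    (h : ∀ x, φ x ∈ L' ↔ x ∈ L) (x : LV n) : trw_Phi φ x ∈ lat L' ↔ x ∈ lat L := by
  simp only [trw_apply, lat, Set.mem_ofPred_eq, h]

theorem trw_symm {n : ℕ} {L L' : AddSubgroup (E n)} (φ : E n ≃ₗᵢ[ℝ] E n)
    (h : ∀ x, φ x ∈ L' ↔ x ∈ L) : ∀ x, φ.symm x ∈ L ↔ x ∈ L' := by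
  intro x
  rw [← h, φ.apply_symm_apply]

theorem trw_conj {n : ℕ} {L L' : AddSubgroup (E n)} (φ : E n ≃ₗᵢ[ℝ] E n)
    (h : ∀ x, φ x ∈ L' ↔ x ∈ L) {g : LV n ≃ₗ[ℝ] LV n} (hg : g ∈ OL L) :
    trw_Phi φ * g * (trw_Phi φ)⁻¹ ∈ OL L' := by
  obtain ⟨h1, h2⟩ := hg
  refine ⟨(LG n).mul_mem ((LG n).mul_mem (trw_mem_LG φ) h1) ((LG n).inv_mem (trw_mem_LG φ)), ?_⟩
  intro x
  rw [LinearEquiv.mul_apply, LinearEquiv.mul_apply, trw_lat φ h, h2, trw_inv,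
    trw_lat φ.symm (trw_symm φ h)]

theorem trw_w0 {n : ℕ} (φ : E n ≃ₗᵢ[ℝ] E n) : trw_Phi φ (w0 : LV n) = w0 := by
  rw [trw_apply]; simp [w0]

theorem trw_orb {n : ℕ} {L L' : AddSubgroup (E n)} (φ : E n ≃ₗᵢ[ℝ] E n)
    (h : ∀ x, φ x ∈ L' ↔ x ∈ L) {w : LV n} (hw : w ∈ Orb L) : trw_Phi φ w ∈ Orb L' := by
  obtain ⟨g, hg, rfl⟩ := hw
  refine ⟨_, trw_conj φ h hg, ?_⟩
  rw [LinearEquiv.mul_apply, LinearEquiv.mul_apply, trw_inv, trw_w0]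

theorem trw_orb_iff {n : ℕ} {L L' : AddSubgroup (E n)} (φ : E n ≃ₗᵢ[ℝ] E n)
    (h : ∀ x, φ x ∈ L' ↔ x ∈ L) (w : LV n) : w ∈ Orb L ↔ trw_Phi φ w ∈ Orb L' := by
  refine ⟨trw_orb φ h, fun hw => ?_⟩
  have h1 := trw_orb φ.symm (trw_symm φ h) hw
  rw [← trw_inv] at h1
  have h2 : (trw_Phi φ)⁻¹ (trw_Phi φ w) = w := (trw_Phi φ).symm_apply_apply w
  rwa [h2] at h1

theorem trw_vec {n : ℕ} (φ : E n ≃ₗᵢ[ℝ] E n) (q : Pt n) :
    vec ((φ q.1, q.2) : Pt n) = trw_Phi φ (vec q) := by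
  rw [trw_apply]
  simp only [vec, LinearIsometryEquiv.norm_map, map_smul]

theorem trw_uval {n : ℕ} (φ : E n ≃ₗᵢ[ℝ] E n) (w : LV n) (q : Pt n) :
    uval (trw_Phi φ w) ((φ q.1, q.2) : Pt n) = uval w q := by
  unfold uval
  rw [trw_vec, trw_form]

theorem trw_pnt {n : ℕ} (φ : E n ≃ₗᵢ[ℝ] E n) (x : LV n) :
    pnt (trw_Phi φ x) = (φ (pnt x).1, (pnt x).2) := by
  rw [trw_apply]
  simp only [pnt, map_smul]

theorem trw_act {n : ℕ} (φ : E n ≃ₗᵢ[ℝ] E n) (g : LV n ≃ₗ[ℝ] LV n) (q : Pt n) :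
    act (trw_Phi φ * g * (trw_Phi φ)⁻¹) ((φ q.1, q.2) : Pt n) =
      (φ (act g q).1, (act g q).2) := by
  unfold act
  rw [trw_vec, LinearEquiv.mul_apply, LinearEquiv.mul_apply]
  have h2 : (trw_Phi φ)⁻¹ (trw_Phi φ (vec q)) = vec q := (trw_Phi φ).symm_apply_apply _
  rw [h2, trw_pnt]

theorem trw_tsum {n : ℕ} {L L' : AddSubgroup (E n)} (φ : E n ≃ₗᵢ[ℝ] E n)
    (h : ∀ x, φ x ∈ L' ↔ x ∈ L) (F : ℝ → ENNReal) (q : Pt n) :
    ∑' w : Orb L', F (uval (w : LV n) ((φ q.1, q.2) : Pt n)) =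
      ∑' w : Orb L, F (uval (w : LV n) q) := by
  let e : (Orb L) ≃ (Orb L') := Equiv.subtypeEquiv (trw_Phi φ).toEquiv (trw_orb_iff φ h)
  rw [← Equiv.tsum_eq e]
  refine tsum_congr fun w => ?_
  have he : ((e w : Orb L') : LV n) = trw_Phi φ (w : LV n) := rfl
  rw [he, trw_uval]

theorem st_TRW : ST_TRW where
  wts := by
    intro n L L' φ h ψ μ M rho H
    refine ⟨H.hψ, H.hψ0, H.hμ, H.hnuM, ?_, ?_⟩
    · intro p hp
      have hq : ((φ.symm p.1, p.2) : Pt n) ∈ UH n := hp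
      have e := trw_tsum φ h (fun t => ENNReal.ofReal (ψ (1 / t))) ((φ.symm p.1, p.2) : Pt n)
      simp only [φ.apply_symm_apply] at e
      have e2 : ((p.1, p.2) : Pt n) = p := rfl
      rw [e2] at e
      rw [e]
      exact H.up _ hq
    · intro p hp
      have hq : ((φ.symm p.1, p.2) : Pt n) ∈ UH n := hp
      have e := trw_tsum φ h (fun t => ENNReal.ofReal (μ * (1 / t) ^ 2 * ψ (1 / t)))
        ((φ.symm p.1, p.2) : Pt n)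
      simp only [φ.apply_symm_apply] at e
      have e2 : ((p.1, p.2) : Pt n) = p := rfl
      rw [e2] at e
      rw [e]
      exact H.low _ hq
  cov := by
    intro n L L' φ h C a H p hp
    have hq : ((φ.symm p.1, p.2) : Pt n) ∈ UH n := hp
    obtain ⟨g, hg, h1, h2⟩ := H _ hq
    refine ⟨_, trw_conj φ h hg, ?_⟩
    have e := trw_act φ g ((φ.symm p.1, p.2) : Pt n)
    simp only [φ.apply_symm_apply] at e
    have e2 : ((p.1, p.2) : Pt n) = p := rfl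
    rw [e2] at e
    rw [e]
    exact ⟨by simpa using h1, h2⟩

end Pool.Agent.Helper10.Fam
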